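import Pool.Agent.H15.TG.Targets

set_option autoImplicit false

namespace Pool.Agent.H33.TG

open MvPolynomial Pool.Agent.H2.ST Pool.Agent.H15.TG

section indep

variable {k : Type} [Field k] [CharZero k] {m d : ℕ}
  {W : (Fin d → ℤ) → Submodule k (Pol k m)} {K : Subalgebra k (Pol k m)}
  {H : Fin d → Pol k m} {f : Pol k m} {π : Fin (d + 1) → Pol k m}
  {ψ : Fin (d + 1) → Fin d → ℤ} {a : Fin (d + 1) → ℕ} {c0 : k}

theorem indep_pi (hGr : Gr W) (hM : MnP W K f (d + 1) π ψ a c0) (hf : Transcendental k f)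
    (P : MvPolynomial (Fin (d + 1)) k) (hP : aeval π P = 0) : P = 0 := by
  classical
  by_contra hP0
  obtain ⟨s0, hs0⟩ : P.support.Nonempty := by
    rw [Finset.nonempty_iff_ne_empty]
    intro h; exact hP0 (MvPolynomial.support_eq_empty.1 h)
  -- the product
  set g : Pol k m := ∏ i, π i ^ a i with hg
  have hgt : Transcendental k g := by
    intro h
    apply hf
    rw [hM.fe]
    exact IsAlgebraic.mul (isAlgebraic_algebraMap c0) h
  let wt : (Fin (d + 1) →₀ ℕ) → (Fin d → ℤ) := fun s => ∑ i, (s i : ℤ) • ψ i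
  have hwt : ∀ s : Fin (d + 1) →₀ ℕ, ∏ i, π i ^ s i ∈ W (wt s) := by
    intro s
    refine prod_mem_gr hGr _ _ _ fun i _ => ?_
    have := pow_mem_gr hGr (hM.wp i) (s i)
    rwa [← natCast_zsmul] at this
  have h0 : ∀ s : Fin (d + 1) →₀ ℕ, ∏ i, π i ^ s i ≠ 0 := fun s =>
    Finset.prod_ne_zero_iff.2 fun i _ => pow_ne_zero _ (hM.pp i).ne_zero
  set T := P.support.filter (fun s => wt s = wt s0) with hT
  -- the component
  have hcomp : ∑ s ∈ T, P.coeff s • ∏ i, π i ^ s i = 0 := by
    have h1 : cmp hGr (aeval π P) (wt s0) = 0 := by rw [hP, map_zero]; rfl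
    rw [aeval_def, eval₂_eq', map_sum (cmp hGr), Finsupp.finsetSum_apply] at h1
    rw [← h1, hT, Finset.sum_filter]
    refine Finset.sum_congr rfl fun s _ => ?_
    rw [← Algebra.smul_def, map_smul, cmp_of_mem hGr (hwt s), Finsupp.smul_apply,
      Finsupp.single_apply]
    split_ifs with h
    · rfl
    · rw [smul_zero]
  have hTne : T.Nonempty := ⟨s0, by rw [hT, Finset.mem_filter]; exact ⟨hs0, rfl⟩⟩
  obtain ⟨s1, hs1, hmin⟩ := T.exists_min_image (fun s => s 0) hTne
  have hs1' := (Finset.mem_filter.1 (hT ▸ hs1))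
  -- differences
  have hdiff : ∀ s : Fin (d + 1) →₀ ℕ, ∃ N : ℕ, s ∈ T → ∀ i, s i = s1 i + N * a i := by
    intro s
    by_cases hs : s ∈ T
    · have hs' := (Finset.mem_filter.1 (hT ▸ hs))
      obtain ⟨N, hN⟩ := hM.rl (fun i => (s i : ℤ) - (s1 i : ℤ)) (by
        have h2 : wt s = wt s1 := by rw [hs'.2, hs1'.2]
        have h3 : ∀ i, ((s i : ℤ) - (s1 i : ℤ)) • ψ i = (s i : ℤ) • ψ i - (s1 i : ℤ) • ψ i :=
          fun i => sub_smul _ _ _
        rw [Finset.sum_congr rfl fun i _ => h3 i, Finset.sum_sub_distrib]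
        exact sub_eq_zero.2 h2)
      have hN0 : 0 ≤ N := by
        have h4 := hN 0
        have h5 : (s1 0 : ℤ) ≤ (s 0 : ℤ) := by exact_mod_cast hmin s hs
        have h6 : (0 : ℤ) < (a 0 : ℤ) := by exact_mod_cast hM.ap 0
        by_contra hneg
        push Not at hneg
        have : N * (a 0 : ℤ) < 0 := mul_neg_of_neg_of_pos hneg h6
        linarith
      obtain ⟨N', rfl⟩ := Int.eq_ofNat_of_zero_le hN0
      refine ⟨N', fun _ i => ?_⟩
      have h4 := hN i
      have h5 : ((s i : ℕ) : ℤ) = ((s1 i + N' * a i : ℕ) : ℤ) := by push_cast; linarith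
      exact_mod_cast h5
    · exact ⟨0, fun h => absurd h hs⟩
  choose N hN using hdiff
  have hprod : ∀ s ∈ T, ∏ i, π i ^ s i = (∏ i, π i ^ s1 i) * g ^ N s := by
    intro s hs
    rw [hg, ← Finset.prod_pow, ← Finset.prod_mul_distrib]
    refine Finset.prod_congr rfl fun i _ => ?_
    rw [hN s hs i, pow_add, ← pow_mul, mul_comm (a i)]
  have hinj : ∀ s ∈ T, ∀ s' ∈ T, N s = N s' → s = s' := by
    intro s hs s' hs' h
    ext i
    rw [hN s hs i, hN s' hs' i, h]
  have hz : ∑ s ∈ T, P.coeff s • g ^ N s = 0 := by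
    have h1 : (∏ i, π i ^ s1 i) * ∑ s ∈ T, P.coeff s • g ^ N s = 0 := by
      rw [← hcomp, Finset.mul_sum]
      refine Finset.sum_congr rfl fun s hs => ?_
      rw [hprod s hs, mul_smul_comm]
    exact (mul_eq_zero.1 h1).resolve_left (h0 s1)
  let Q : Polynomial k := ∑ s ∈ T, Polynomial.monomial (N s) (P.coeff s)
  have hQ : Polynomial.aeval g Q = 0 := by
    rw [← hz]
    simp only [Q]
    rw [map_sum]
    refine Finset.sum_congr rfl fun s _ => ?_
    rw [Polynomial.aeval_monomial, Algebra.smul_def]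
  have hQ0 : Q = 0 := by
    by_contra h
    exact hgt ⟨Q, h, hQ⟩
  have hc : Q.coeff (N s1) = P.coeff s1 := by
    simp only [Q]
    rw [Polynomial.finsetSum_coeff, Finset.sum_eq_single s1]
    · rw [Polynomial.coeff_monomial, if_pos rfl]
    · intro s hs hne
      rw [Polynomial.coeff_monomial, if_neg]
      intro h
      exact hne (hinj s hs s1 hs1 h)
    · intro h; exact absurd hs1 h
  rw [hQ0, Polynomial.coeff_zero] at hc
  exact (MvPolynomial.mem_support_iff.1 hs1'.1) hc.symm

/-- the determinant of the weights -/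
theorem det_ne (hM : MnP W K f (d + 1) π ψ a c0) :
    (Matrix.of fun (i j : Fin d) => ((ψ i.succ j : ℤ) : k)).det ≠ 0 := by
  have h1 : (Matrix.of fun (i j : Fin d) => ψ i.succ j).det ≠ 0 := by
    intro h
    obtain ⟨v, hv, hv0⟩ := Matrix.exists_vecMul_eq_zero_iff.2 h
    apply hv
    obtain ⟨N, hN⟩ := hM.rl (Fin.cons 0 v) (by
      rw [Fin.sum_univ_succ, Fin.cons_zero, zero_smul, zero_add]
      funext j
      have h2 := congrFun hv0 j
      rw [Matrix.vecMul, dotProduct] at h2
      rw [Finset.sum_apply]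
      refine Eq.trans (Finset.sum_congr rfl fun i _ => ?_) h2
      rw [Fin.cons_succ, Pi.smul_apply, smul_eq_mul]
      rfl)
    have h3 := hN 0
    rw [Fin.cons_zero] at h3
    have h4 : (a 0 : ℤ) ≠ 0 := by
      have := hM.ap 0
      exact_mod_cast this.ne'
    have hN0 : N = 0 := (mul_eq_zero.1 h3.symm).resolve_right h4
    funext i
    have h5 := hN i.succ
    rw [Fin.cons_succ, hN0, zero_mul] at h5
    exact h5
  have h2 : (Matrix.of fun (i j : Fin d) => ((ψ i.succ j : ℤ) : k)) =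
      (Int.castRingHom k).mapMatrix (Matrix.of fun (i j : Fin d) => ψ i.succ j) := by
    ext i j
    rfl
  rw [h2, ← RingHom.map_det]
  intro h
  apply h1
  exact (Int.cast_eq_zero (α := k)).1 h

end indep

theorem pf_CPH (hAI1 : T_AI1) (hPPC : T_PPC) (hCZF : T_CZF) (hCGR : T_CGR) (hIND : T_IND)
    (hCOC : T_COC) : T_CPH := by
  classical
  intro k _ _ _ m d W K H f π ψ a c0 hMn
  have hG : Gd W K H f := hMn.toGd
  have hM : MnP W K f (d + 1) π ψ a c0 := hMn.toMnP
  have hGr : Gr W := hG.toFd.toDat.toPGr.toGr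
  have hind := hIND k m d W K H f hG.toFd
  have hft : Transcendental k f := hind.transcendental (Sum.inl ())
  refine ⟨?_, ?_⟩
  · -- independence
    have h1 : Imod k (⊥ : Ideal (Pol k m)) (Sum.elim π H) := by
      refine hAI1 k (Pol k m) (Fin (d + 1)) (Fin d) ⊥ π H (fun j => ad (π j.succ))
        Ideal.isPrime_bot ?_ ?_ ?_ ?_
      · intro i x hx
        rw [Ideal.mem_bot] at hx ⊢
        rw [hx, map_zero]
      · intro i j
        rw [Ideal.mem_bot, ad_apply]
        exact hPPC k m d W K H f π ψ a c0 hMn _ _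
      · rw [Ideal.mem_bot]
        have h2 : (Matrix.of fun (i j : Fin d) => ad (π i.succ) (H j)) =
            Matrix.of fun (i j : Fin d) => (-π i.succ) *
              (Matrix.of fun (i j : Fin d) => (C ((ψ i.succ j : ℤ) : k) : Pol k m)) i j := by
          ext1 i j
          rw [Matrix.of_apply, Matrix.of_apply, Matrix.of_apply, ad_apply, br_anti,
            hG.toFd.toDat.eu j (ψ i.succ) (π i.succ) (mem_Cf.1 (hM.hp _)).1 (hM.wp _),
            MvPolynomial.smul_eq_C_mul]
          ring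
        rw [h2, Matrix.det_mul_column]
        refine mul_ne_zero (Finset.prod_ne_zero_iff.2 fun i _ => neg_ne_zero.2 (hM.pp _).ne_zero) ?_
        have h3 : (Matrix.of fun (i j : Fin d) => (C ((ψ i.succ j : ℤ) : k) : Pol k m)) =
            (C : k →+* Pol k m).mapMatrix (Matrix.of fun (i j : Fin d) => ((ψ i.succ j : ℤ) : k)) := by
          ext1 i j
          rfl
        rw [h3, ← RingHom.map_det]
        intro h4
        have h5 : (C ((Matrix.of fun (i j : Fin d) => ((ψ i.succ j : ℤ) : k)).det) : Pol k m) =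
            C 0 := by rw [C_0]; exact h4
        exact det_ne hM (C_injective _ _ h5)
      · intro P hP
        rw [Ideal.mem_bot] at hP
        exact indep_pi hGr hM hft P hP
    rw [algebraicIndependent_iff]
    intro P hP
    exact h1 P (by rw [Ideal.mem_bot]; exact hP)
  · -- generation
    have hR : ∀ y : Pol k m, y ∈ (aeval (R := k) (Sum.elim π H)).range ↔
        ∃ Q : MvPolynomial (Fin (d + 1) ⊕ Fin d) k, aeval (Sum.elim π H) Q = y := by
      intro y; rfl
    set R : Subalgebra k (Pol k m) := (aeval (R := k) (Sum.elim π H)).range with hRdef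
    have hπ : ∀ i, π i ∈ R := fun i => (hR _).2 ⟨X (Sum.inl i), by rw [aeval_X, Sum.elim_inl]⟩
    have hH : ∀ i, H i ∈ R := fun i => (hR _).2 ⟨X (Sum.inr i), by rw [aeval_X, Sum.elim_inr]⟩
    have hprod : ∀ e : Fin (d + 1) → ℕ, ∏ i, π i ^ e i ∈ R := fun e =>
      Subalgebra.prod_mem _ fun i _ => R.pow_mem (hπ i) _
    have hfR : f ∈ R := by
      rw [hM.fe]
      exact R.mul_mem (R.algebraMap_mem c0) (hprod a)
    have hsub : (aeval (R := k) (Sum.elim (fun _ : Unit => f) H)).range ≤ R := by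
      rw [← Algebra.adjoin_range_eq_range_aeval]
      refine Algebra.adjoin_le ?_
      rintro x ⟨s, rfl⟩
      rcases s with s | s
      · exact hfR
      · exact hH s
    have hcmp : ∀ g ∈ Cf K f, ∀ χ, cmp hGr g χ ∈ R := by
      intro g hg χ
      obtain ⟨h1, h2⟩ := hCGR k m d W K H f hG.toFd g hg χ
      by_cases h0 : cmp hGr g χ = 0
      · rw [h0]; exact R.zero_mem
      · obtain ⟨y, hy, hy0, e, he⟩ := hM.mo' χ _ h1 h2 h0
        obtain ⟨Q, hQ⟩ := hCZF k m d W K H f hG y hy hy0
        have hyR : y ∈ R := hsub ⟨Q, hQ⟩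
        have : cmp hGr g χ = y * ∏ i, π i ^ e i := he
        rw [this]
        exact R.mul_mem hyR (hprod e)
    intro g hg
    rw [← hR]
    rw [← cmp_sum hGr g]
    unfold Finsupp.sum
    exact Subalgebra.sum_mem _ fun χ _ => hcmp g hg χ

end Pool.Agent.H33.TG
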