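import Pool.Agent.H15.TG.Targets

set_option autoImplicit false

namespace Pool.Agent.H33.TG

open MvPolynomial Pool.Agent.H2.ST Pool.Agent.H15.TG

/-- pairwise non associated representatives of the prime factors -/
theorem reps {A : Type} [CommRing A] [IsDomain A] [UniqueFactorizationMonoid A] (f : A)
    (hf : f ≠ 0) : ∃ (n : ℕ) (π : Fin n → A) (a : Fin n → ℕ) (u : Aˣ), (∀ i, Prime (π i)) ∧
      (∀ i, 0 < a i) ∧ f = u * ∏ i, π i ^ a i ∧ (∀ i j, i ≠ j → ¬ π i ∣ π j) ∧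
      ∀ p, Prime p → p ∣ f → ∃ i, Associated p (π i) := by
  classical
  let _ := UniqueFactorizationMonoid.strongNormalizationMonoid (α := A)
  set s := UniqueFactorizationMonoid.normalizedFactors f with hs
  set S := s.toFinset with hS
  let e := S.equivFin
  have hmem : ∀ i, ((e.symm i : S) : A) ∈ s := fun i => Multiset.mem_toFinset.1 (e.symm i).2
  have hpr : ∀ i, Prime ((e.symm i : S) : A) := fun i =>
    UniqueFactorizationMonoid.prime_of_normalized_factor _ (hmem i)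
  obtain ⟨u, hu⟩ := UniqueFactorizationMonoid.prod_normalizedFactors hf
  refine ⟨S.card, fun i => ((e.symm i : S) : A), fun i => s.count ((e.symm i : S) : A), u, hpr,
    fun i => Multiset.count_pos.2 (hmem i), ?_, ?_, ?_⟩
  · have h1 : ∏ i, ((e.symm i : S) : A) ^ s.count ((e.symm i : S) : A) = s.prod := by
      rw [Finset.prod_multiset_count s, ← hS, ← Finset.prod_coe_sort S]
      exact Fintype.prod_equiv e.symm _ _ fun i => rfl
    rw [h1, mul_comm]
    exact hu.symm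
  · intro i j hij hd
    have h1 : Associated ((e.symm i : S) : A) ((e.symm j : S) : A) :=
      (hpr i).irreducible.associated_of_dvd (hpr j).irreducible hd
    have h2 := UniqueFactorizationMonoid.normalize_normalized_factor _ (hmem i)
    have h3 := UniqueFactorizationMonoid.normalize_normalized_factor _ (hmem j)
    have h4 : ((e.symm i : S) : A) = ((e.symm j : S) : A) := by
      rw [← h2, ← h3]
      exact normalize_eq_normalize h1.dvd h1.symm.dvd
    exact hij (e.symm.injective (Subtype.ext h4))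
  · intro p hp hpf
    obtain ⟨q, hq, hpq⟩ :=
      UniqueFactorizationMonoid.exists_mem_normalizedFactors_of_dvd hf hp.irreducible hpf
    have hqS : q ∈ S := Multiset.mem_toFinset.2 hq
    refine ⟨e ⟨q, hqS⟩, ?_⟩
    show Associated p ((e.symm (e ⟨q, hqS⟩) : S) : A)
    rw [Equiv.symm_apply_apply]
    exact hpq

/-- exponents in divisibilities of monomials in primes -/
theorem exp_le {A : Type} [CommRing A] [IsDomain A] {n : ℕ} (π : Fin n → A)
    (hp : ∀ i, Prime (π i)) (na : ∀ i j, i ≠ j → ¬ π i ∣ π j) (a e : Fin n → ℕ) (i : Fin n)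
    (h : π i ^ a i ∣ ∏ j, π j ^ e j) : a i ≤ e i := by
  classical
  rw [← Finset.mul_prod_erase Finset.univ _ (Finset.mem_univ i)] at h
  have h1 : ¬ π i ∣ ∏ j ∈ Finset.univ.erase i, π j ^ e j := by
    intro h2
    obtain ⟨j, hj, h3⟩ := (hp i).exists_mem_finset_dvd h2
    exact na i j (Finset.ne_of_mem_erase hj).symm ((hp i).dvd_of_dvd_pow h3)
  have h2 := (hp i).pow_dvd_of_dvd_mul_right _ h1 h
  exact (pow_dvd_pow_iff (hp i).ne_zero (hp i).not_isUnit).1 h2

theorem pf_MNA (hSON : T_SON) (hCFC : T_CFC) (hCOC : T_COC) (hFAC : T_FAC) (hFAX : T_FAX) :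
    T_MNA := by
  classical
  intro k _ _ _ m d W K H f hG
  have hGr : Gr W := hG.toFd.toDat.toPGr.toGr
  have hfC : f ∈ Cf K f := mem_Cf.2 ⟨hG.toFd.fK, br_self f⟩
  have hfW : f ∈ W 0 := hG.toFd.f0
  have hf0 : f ≠ 0 := hG.toFd.fn
  obtain ⟨n, π, a, u, hpr, hap, hfe, hna, hass⟩ := reps f hf0
  -- units are constants
  have hun : ∀ v : Pol k m, IsUnit v → ∃ c : k, c ≠ 0 ∧ v = C c := by
    intro v hv
    obtain ⟨c, hc, hvc⟩ := MvPolynomial.isUnit_iff_eq_C_of_isReduced.1 hv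
    exact ⟨c, hc.ne_zero, hvc⟩
  have hCW : ∀ c : k, (C c : Pol k m) ∈ W 0 := fun c => algebraMap_mem_gr hGr c
  have hCC : ∀ c : k, (C c : Pol k m) ∈ Cf K f := fun c => (Cf K f).algebraMap_mem c
  -- a homogeneous element of nonzero weight
  obtain ⟨χ, hχo, hχ0⟩ : ∃ χ, Oc W K χ ∧ χ ≠ 0 := by
    by_contra hcon
    push Not at hcon
    have h1 : (fun _ : Fin d => (1 : k)) = 0 := hG.toFd.toDat.sp _ fun χ hχ => by
      rw [hcon χ hχ]; simp
    have h2 := congrFun h1 ⟨0, hG.toFd.toDat.dpos⟩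
    exact one_ne_zero h2
  obtain ⟨g, hg, hgχ, hg0⟩ := hCOC k m d W K H f hG.toFd χ hχo
  -- every prime of nonzero weight divides f
  have hdvd : ∀ (ψ : Fin d → ℤ) (p : Pol k m), ψ ≠ 0 → Prime p → p ∈ Cf K f → p ∈ W ψ → p ∣ f :=
    fun ψ p h1 h2 h3 h4 => (hSON k m d W K H f hG ψ p h1 h2 h3 h4).2.2.2.1
  -- the factorization
  have hmo : ∀ g : Pol k m, ∀ χ : Fin d → ℤ, g ∈ Cf K f → g ∈ W χ → g ≠ 0 →
      ∃ y ∈ Cf K f, y ∈ W 0 ∧ ∃ e : Fin n → ℕ, g = y * ∏ i, π i ^ e i := by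
    intro g
    refine UniqueFactorizationMonoid.induction_on_prime g ?_ ?_ ?_
    · intro χ _ _ h; exact absurd rfl h
    · intro v hv χ h1 h2 h3
      obtain ⟨c, hc, rfl⟩ := hun v hv
      exact ⟨C c, hCC c, hCW c, fun _ => 0, by simp⟩
    · intro b p hb hp ih χ h1 h2 h3
      obtain ⟨h4, h5⟩ := hCFC k m d W K H f hG.toFd p b h3 h1
      obtain ⟨β, γ, h6, h7, -⟩ := hFAC k (Pol k m) (Fin d → ℤ) W hGr χ p b h2 h3
      obtain ⟨y, hy, hyW, e, he⟩ := ih γ h5 h7 hb
      by_cases hβ : β = 0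
      · subst hβ
        refine ⟨p * y, (Cf K f).mul_mem h4 hy, ?_, e, ?_⟩
        · have := mul_mem_gr hGr h6 hyW; rwa [add_zero] at this
        · rw [he]; ring
      · obtain ⟨i, v, hv⟩ := hass p hp (hdvd β p hβ hp h4 h6)
        obtain ⟨c, hc, hvc⟩ := hun (v⁻¹ : (Pol k m)ˣ) (Units.isUnit _)
        have hpi : p = C c * π i := by
          rw [← hvc, ← hv, mul_comm]; simp
        refine ⟨C c * y, (Cf K f).mul_mem (hCC c) hy, ?_, fun j => e j + if j = i then 1 else 0, ?_⟩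
        · have := mul_mem_gr hGr (hCW c) hyW; rwa [add_zero] at this
        · have h8 : ∏ j, π j ^ (e j + if j = i then 1 else 0) = (∏ j, π j ^ e j) * π i := by
            simp_rw [pow_add]
            rw [Finset.prod_mul_distrib]
            congr 1
            rw [Finset.prod_eq_single i]
            · simp
            · intro j _ hj; rw [if_neg hj, pow_zero]
            · intro h; exact absurd (Finset.mem_univ i) h
          rw [h8, he]
          conv_lhs => rw [hpi]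
          ring
  -- a prime of nonzero weight
  obtain ⟨ψ₁, π₁, hψ₁, hπ₁, hπ₁C, hπ₁W⟩ : ∃ (ψ₁ : Fin d → ℤ) (π₁ : Pol k m), ψ₁ ≠ 0 ∧ Prime π₁ ∧
      π₁ ∈ Cf K f ∧ π₁ ∈ W ψ₁ := by
    have h1 : ∀ g : Pol k m, ∀ χ : Fin d → ℤ, χ ≠ 0 → g ∈ Cf K f → g ∈ W χ → g ≠ 0 →
        ∃ (ψ₁ : Fin d → ℤ) (π₁ : Pol k m), ψ₁ ≠ 0 ∧ Prime π₁ ∧ π₁ ∈ Cf K f ∧ π₁ ∈ W ψ₁ := by
      intro g
      refine UniqueFactorizationMonoid.induction_on_prime g ?_ ?_ ?_
      · intro χ _ _ _ h; exact absurd rfl h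
      · intro v hv χ h0 h1 h2 h3
        obtain ⟨c, hc, rfl⟩ := hun v hv
        exact absurd (wt_uniq hGr h2 (hCW c) h3) h0
      · intro b p hb hp ih χ h0 h1 h2 h3
        obtain ⟨h4, h5⟩ := hCFC k m d W K H f hG.toFd p b h3 h1
        obtain ⟨β, γ, h6, h7, h8⟩ := hFAC k (Pol k m) (Fin d → ℤ) W hGr χ p b h2 h3
        by_cases hβ : β = 0
        · subst hβ
          rw [zero_add] at h8
          exact ih γ (by rw [h8]; exact h0) h5 h7 hb
        · exact ⟨β, p, hβ, hp, h4, h6⟩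
    exact h1 g χ hχ0 hg hgχ hg0
  have hS₁ := hSON k m d W K H f hG ψ₁ π₁ hψ₁ hπ₁ hπ₁C hπ₁W
  have hpid : ∀ i, π i ∣ f := by
    intro i
    rw [hfe]
    refine dvd_mul_of_dvd_right (dvd_trans (dvd_pow_self _ (hap i).ne') ?_) _
    exact Finset.dvd_prod_of_mem (fun i => π i ^ a i) (Finset.mem_univ i)
  have hF := fun i => hFAX k m d W K H f hG ψ₁ π₁ f (π i) hψ₁ hπ₁ hπ₁C hπ₁W hS₁ (hpr i) (hpid i)
  choose hFC ψ hψ0 hψW hψS using hF
  obtain ⟨c0, hc0, huc⟩ := hun (u : Pol k m) u.isUnit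
  have hfe' : f = C c0 * ∏ i, π i ^ a i := by rw [← huc]; exact hfe
  have hprodW : ∀ e : Fin n → ℕ, ∏ i, π i ^ e i ∈ W (∑ i, (e i : ℤ) • ψ i) := by
    intro e
    refine prod_mem_gr hGr _ _ _ fun i _ => ?_
    have := pow_mem_gr hGr (hψW i) (e i)
    rwa [← natCast_zsmul] at this
  have hprodC : ∀ e : Fin n → ℕ, ∏ i, π i ^ e i ∈ Cf K f := fun e =>
    Subalgebra.prod_mem _ fun i _ => (Cf K f).pow_mem (hFC i) _
  have hprod0 : ∀ e : Fin n → ℕ, ∏ i, π i ^ e i ≠ 0 := fun e =>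
    Finset.prod_ne_zero_iff.2 fun i _ => pow_ne_zero _ (hpr i).ne_zero
  have hra : ∑ i, (a i : ℤ) • ψ i = 0 := by
    have h1 := mul_mem_gr hGr (hCW c0) (hprodW a)
    rw [← hfe', zero_add] at h1
    exact wt_uniq hGr h1 hfW hf0
  -- natural relations
  have hrn : ∀ (t : ℕ) (e : Fin n → ℕ), ∑ i, e i = t → ∑ i, (e i : ℤ) • ψ i = 0 →
      ∃ N : ℕ, ∀ i, e i = N * a i := by
    intro t
    induction t using Nat.strong_induction_on with
    | _ t ih =>
      intro e het he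
      by_cases hz : ∀ i, e i = 0
      · exact ⟨0, fun i => by rw [hz i, zero_mul]⟩
      · push Not at hz
        obtain ⟨i, hi⟩ := hz
        have h1 : ∏ i, π i ^ e i ∈ W 0 := by
          have := hprodW e; rwa [he] at this
        have h2 : π i ∣ ∏ i, π i ^ e i :=
          dvd_trans (dvd_pow_self _ hi) (Finset.dvd_prod_of_mem (fun i => π i ^ e i) (Finset.mem_univ i))
        have h3 : f ∣ ∏ i, π i ^ e i := (hψS i).2.2.2.2 _ (hprodC e) h1 h2
        have h4 : ∀ j, a j ≤ e j := by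
          intro j
          refine exp_le π hpr hna a e j (dvd_trans ?_ h3)
          rw [hfe]
          refine dvd_mul_of_dvd_right ?_ _
          exact Finset.dvd_prod_of_mem (fun i => π i ^ a i) (Finset.mem_univ j)
        obtain ⟨N, hN⟩ := ih (∑ j, (e j - a j)) (by
          rw [← het]
          refine Finset.sum_lt_sum (fun j _ => Nat.sub_le _ _) ⟨i, Finset.mem_univ i, ?_⟩
          have := hap i
          omega) (fun j => e j - a j) rfl (by
          have h5 : ∀ j, ((e j - a j : ℕ) : ℤ) • ψ j = (e j : ℤ) • ψ j - (a j : ℤ) • ψ j := by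
            intro j
            rw [Nat.cast_sub (h4 j), sub_smul]
          rw [Finset.sum_congr rfl fun j _ => h5 j, Finset.sum_sub_distrib, he, hra, sub_zero])
        refine ⟨N + 1, fun j => ?_⟩
        have h5 := hN j
        have h6 := h4 j
        have h7 : (N + 1) * a j = N * a j + a j := by ring
        omega
  have hrl : ∀ e : Fin n → ℤ, ∑ i, e i • ψ i = 0 → ∃ N : ℤ, ∀ i, e i = N * (a i : ℤ) := by
    intro e he
    set M : ℕ := ∑ i, (e i).natAbs with hM
    have h1 : ∀ i, 0 ≤ e i + (M : ℤ) * (a i : ℤ) := by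
      intro i
      have h2 : (e i).natAbs ≤ M := Finset.single_le_sum (f := fun i => (e i).natAbs)
        (fun j _ => Nat.zero_le _) (Finset.mem_univ i)
      have h3 : (1 : ℤ) ≤ (a i : ℤ) := by exact_mod_cast hap i
      have h4 : ((e i).natAbs : ℤ) ≤ (M : ℤ) := by exact_mod_cast h2
      have h5 : -((e i).natAbs : ℤ) ≤ e i := by omega
      nlinarith
    obtain ⟨N, hN⟩ := hrn _ (fun i => (e i + (M : ℤ) * (a i : ℤ)).toNat) rfl (by
      have h2 : ∀ i, (((e i + (M : ℤ) * (a i : ℤ)).toNat : ℕ) : ℤ) • ψ i =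
          e i • ψ i + (M : ℤ) • ((a i : ℤ) • ψ i) := by
        intro i
        rw [Int.toNat_of_nonneg (h1 i), add_smul, smul_smul]
      rw [Finset.sum_congr rfl fun i _ => h2 i, Finset.sum_add_distrib, ← Finset.smul_sum, he, hra]
      simp)
    refine ⟨(N : ℤ) - M, fun i => ?_⟩
    have h2 := hN i
    have h3 : ((e i + (M : ℤ) * (a i : ℤ)).toNat : ℤ) = ((N * a i : ℕ) : ℤ) := by exact_mod_cast h2
    rw [Int.toNat_of_nonneg (h1 i)] at h3
    push_cast at h3
    linarith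
  refine ⟨n, π, ψ, a, c0, ?_, ⟨hpr, hFC, hψW, hψ0, hap, hc0, hfe', hna, ?_, ?_, hra, hrl⟩⟩
  · by_contra hn
    have hn0 : n = 0 := by omega
    subst hn0
    obtain ⟨y, hy, hy0, e, he⟩ := hmo g χ hg hgχ hg0
    rw [Finset.univ_eq_empty, Finset.prod_empty, mul_one] at he
    rw [← he] at hy0
    exact hχ0 (wt_uniq hGr hgχ hy0 hg0)
  · intro y hy hy0 i hi
    exact (hψS i).2.2.2.2 y hy hy0 hi
  · intro χ g hg hgχ hg0
    exact hmo g χ hg hgχ hg0

end Pool.Agent.H33.TG
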