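import Pool.Agent.H15.TG.Targets

set_option autoImplicit false

namespace Pool.Agent.H33.TG

open MvPolynomial Pool.Agent.H2.ST Pool.Agent.H15.TG

/-- integral relations: the kernel over the rationals has dimension one -/
theorem rank_aux (n d : ℕ) (ψ : Fin n → Fin d → ℤ) (a : Fin n → ℕ) (hn : 0 < n)
    (ap : ∀ i, 0 < a i) (ra : ∑ i, (a i : ℤ) • ψ i = 0)
    (rl : ∀ e : Fin n → ℤ, ∑ i, e i • ψ i = 0 → ∃ N : ℤ, ∀ i, e i = N * (a i : ℤ))
    (inj : ∀ l : Fin d → ℚ, (∀ i, ∑ j, l j * ((ψ i j : ℤ) : ℚ) = 0) → l = 0) : n = d + 1 := by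
  classical
  let M : Matrix (Fin n) (Fin d) ℚ := Matrix.of fun i j => ((ψ i j : ℤ) : ℚ)
  have hMij : ∀ i j, M i j = ((ψ i j : ℤ) : ℚ) := fun i j => rfl
  have hinj : Function.Injective M.mulVecLin := by
    rw [← LinearMap.ker_eq_bot, LinearMap.ker_eq_bot']
    intro l hl
    refine inj l fun i => ?_
    have h1 : (M.mulVecLin l) i = 0 := by rw [hl]; rfl
    rw [Matrix.mulVecLin_apply, Matrix.mulVec, dotProduct] at h1
    rw [← h1]
    refine Finset.sum_congr rfl fun j _ => ?_
    rw [hMij, mul_comm]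
  have hr : M.rank = d := by
    rw [Matrix.rank, LinearMap.finrank_range_of_inj hinj, Module.finrank_fin_fun]
  have hrt : M.transpose.rank = d := by rw [Matrix.rank_transpose, hr]
  have h2 := LinearMap.finrank_range_add_finrank_ker (M.transpose.mulVecLin)
  rw [Module.finrank_fin_fun] at h2
  have h3 : Module.finrank ℚ (LinearMap.range M.transpose.mulVecLin) = d := by
    exact hrt
  have hker : ∀ e : Fin n → ℚ, e ∈ LinearMap.ker M.transpose.mulVecLin ↔
      ∀ j, ∑ i, e i * ((ψ i j : ℤ) : ℚ) = 0 := by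
    intro e
    rw [LinearMap.mem_ker, Matrix.mulVecLin_apply, _root_.funext_iff]
    refine forall_congr' fun j => ?_
    rw [Matrix.mulVec, dotProduct]
    have : ∑ i, M.transpose j i * e i = ∑ i, e i * ((ψ i j : ℤ) : ℚ) := by
      refine Finset.sum_congr rfl fun i _ => ?_
      rw [Matrix.transpose_apply, hMij, mul_comm]
    rw [this]; rfl
  have ha : (fun i => (a i : ℚ)) ∈ LinearMap.ker M.transpose.mulVecLin := by
    rw [hker]
    intro j
    have h4 := congrFun ra j
    rw [Finset.sum_apply] at h4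
    have h5 : ((∑ i, ((a i : ℤ) • ψ i) j : ℤ) : ℚ) = 0 := by
      rw [h4]; simp
    rw [← h5]
    push_cast
    refine Finset.sum_congr rfl fun i _ => ?_
    rw [Pi.smul_apply, smul_eq_mul]
    push_cast; rfl
  have hk1 : Module.finrank ℚ (LinearMap.ker M.transpose.mulVecLin) = 1 := by
    rw [finrank_eq_one_iff_of_nonzero' (⟨_, ha⟩ : LinearMap.ker M.transpose.mulVecLin)]
    · rintro ⟨e, he⟩
      rw [hker] at he
      -- clear denominators
      obtain ⟨N, hN⟩ := IsLocalization.exist_integer_multiples_of_finset (nonZeroDivisors ℤ)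
        (Finset.univ.image e)
      have hN0 : ((N : ℤ) : ℚ) ≠ 0 := by
        have := nonZeroDivisors.ne_zero N.2
        exact_mod_cast this
      choose z hz using fun i : Fin n => hN (e i) (Finset.mem_image_of_mem _ (Finset.mem_univ i))
      have hz' : ∀ i, ((z i : ℤ) : ℚ) = ((N : ℤ) : ℚ) * e i := by
        intro i
        have := hz i
        rw [Algebra.smul_def] at this
        exact this
      have hrel : ∑ i, z i • ψ i = 0 := by
        funext j
        rw [Finset.sum_apply]
        have h6 : ((∑ i, (z i • ψ i) j : ℤ) : ℚ) = 0 := by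
          push_cast
          have h7 : ∀ i, (((z i • ψ i) j : ℤ) : ℚ) = ((N : ℤ) : ℚ) * (e i * ((ψ i j : ℤ) : ℚ)) := by
            intro i
            rw [Pi.smul_apply, smul_eq_mul, Int.cast_mul, hz' i]; ring
          rw [Finset.sum_congr rfl fun i _ => h7 i, ← Finset.mul_sum, he j, mul_zero]
        have h8 : (∑ i, (z i • ψ i) j : ℤ) = 0 := by exact_mod_cast h6
        rw [h8]; rfl
      obtain ⟨N', hN'⟩ := rl z hrel
      refine ⟨(N' : ℚ) / ((N : ℤ) : ℚ), ?_⟩
      apply Subtype.ext
      funext i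
      show (N' : ℚ) / ((N : ℤ) : ℚ) * (a i : ℚ) = e i
      have h9 := hz' i
      rw [hN' i] at h9
      push_cast at h9
      field_simp
      linarith
    · intro h0
      have h4 := congrArg Subtype.val h0
      have h5 := congrFun h4 ⟨0, hn⟩
      have h6 : (a ⟨0, hn⟩ : ℚ) = 0 := h5
      have h7 := ap ⟨0, hn⟩
      have h8 : a ⟨0, hn⟩ = 0 := by exact_mod_cast h6
      omega
  rw [h3, hk1] at h2
  omega

theorem pf_MNR (hCOC : T_COC) : T_MNR := by
  intro k _ _ _ m d W K H f hG n π ψ a c0 hn hM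
  refine rank_aux n d ψ a hn hM.ap hM.ra hM.rl ?_
  intro l hl
  have hGr : Gr W := hG.toFd.toDat.toPGr.toGr
  have h1 : (fun j => ((l j : ℚ) : k)) = 0 := by
    refine hG.toFd.toDat.sp _ fun χ hχ => ?_
    obtain ⟨g, hg, hgχ, hg0⟩ := hCOC k m d W K H f hG.toFd χ hχ
    obtain ⟨y, hy, hy0, e, he⟩ := hM.mo' χ g hg hgχ hg0
    have h2 : g ∈ W (0 + ∑ i, e i • ψ i) := by
      rw [he]
      refine mul_mem_gr hGr hy0 (prod_mem_gr hGr _ _ _ fun i _ => ?_)
      exact pow_mem_gr hGr (hM.wp i) _
    have h3 : χ = ∑ i, e i • ψ i := by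
      have := wt_uniq hGr hgχ h2 hg0
      rwa [zero_add] at this
    have h4 : ∀ j, ((χ j : ℤ) : k) = ∑ i, (e i : k) * ((ψ i j : ℤ) : k) := by
      intro j
      rw [h3, Finset.sum_apply]
      push_cast
      refine Finset.sum_congr rfl fun i _ => ?_
      rw [Pi.smul_apply, nsmul_eq_mul]
      push_cast; rfl
    calc ∑ j, ((l j : ℚ) : k) * ((χ j : ℤ) : k)
        = ∑ j, ∑ i, (e i : k) * (((l j : ℚ) : k) * ((ψ i j : ℤ) : k)) := by
          refine Finset.sum_congr rfl fun j _ => ?_
          rw [h4 j, Finset.mul_sum]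
          refine Finset.sum_congr rfl fun i _ => ?_
          ring
      _ = ∑ i, (e i : k) * ((∑ j, l j * ((ψ i j : ℤ) : ℚ) : ℚ) : k) := by
          rw [Finset.sum_comm]
          refine Finset.sum_congr rfl fun i _ => ?_
          rw [← Finset.mul_sum]
          push_cast
          rfl
      _ = 0 := by
          refine Finset.sum_eq_zero fun i _ => ?_
          rw [hl i]; simp
  funext j
  have h5 := congrFun h1 j
  have h6 : ((l j : ℚ) : k) = ((0 : ℚ) : k) := by rw [Rat.cast_zero]; exact h5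
  exact Rat.cast_injective h6

end Pool.Agent.H33.TG
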